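import Mathlib
import Pool.Agent.X37.RB.TwoMod

set_option autoImplicit false

/-!
# Sums `x² + y² + z² + 4 w²` with `⌊β ^ x + β ^ y + β ^ z⌋ + 1` prime for real bases `β`

For `β = 2` the integer `⌊β ^ x + β ^ y + β ^ z⌋ + 1` is the number `2 ^ x + 2 ^ y + 2 ^ z + 1`
of the problem.  We prescribe the residue class of the leading exponent `x` to an arbitrary odd
modulus and let the other two exponents be at most `5 x / 6`.  We prove that every large odd `n` has
such a quadruple for a positive proportion of the bases of every interval of bases (uniformly in the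
interval), and that for every sequence of odd numbers tending to infinity and almost every base
`β > 1`, for all odd moduli and all residue classes, the members of the sequence which have such a
quadruple have positive upper density in the sequence.
-/

namespace Pool.Agent.Results.MP_f6c7cf_nt.AlmostEveryBase

open MeasureTheory Filter Topology
open Pool.Agent.X37.RB

/-- `n` has a quadruple `(x, y, z, w)` with `n = x² + y² + z² + 4 w²` for which
`⌊β ^ x + β ^ y + β ^ z⌋ + 1` is prime, `x ≡ h` modulo `m`, `y ≤ 5 x / 6` and `z ≤ 5 x / 6`. -/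
def Leading (m h : ℕ) (β : ℝ) (n : ℕ) : Prop :=
  ∃ x y z w : ℕ, n = x ^ 2 + y ^ 2 + z ^ 2 + 4 * w ^ 2 ∧ (⌊β ^ x + β ^ y + β ^ z⌋₊ + 1).Prime ∧
    x ≡ h [MOD m] ∧ 6 * y ≤ 5 * x ∧ 6 * z ≤ 5 * x

/-- for the base `2` the value is the one of the problem -/
theorem leading_two (m h n : ℕ) : Leading m h 2 n ↔ ∃ x y z w : ℕ,
    n = x ^ 2 + y ^ 2 + z ^ 2 + 4 * w ^ 2 ∧ (2 ^ x + 2 ^ y + 2 ^ z + 1).Prime ∧
    x ≡ h [MOD m] ∧ 6 * y ≤ 5 * x ∧ 6 * z ≤ 5 * x := by
  unfold Leading
  have e : ∀ x y z : ℕ, ⌊(2 : ℝ) ^ x + 2 ^ y + 2 ^ z⌋₊ = 2 ^ x + 2 ^ y + 2 ^ z := by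
    intro x y z
    have : (2 : ℝ) ^ x + 2 ^ y + 2 ^ z = ((2 ^ x + 2 ^ y + 2 ^ z : ℕ) : ℝ) := by push_cast; ring
    rw [this, Nat.floor_natCast]
  simp only [e]

open Classical in
/-- the number of `k < K` for which `N k` has such a quadruple for the base `β` -/
noncomputable def count (m h : ℕ) (β : ℝ) (N : ℕ → ℕ) (K : ℕ) : ℕ :=
  ((Finset.range K).filter (fun k => Leading m h β (N k))).card

lemma lead_iff (m h : ℕ) (β : ℝ) (n : ℕ) : Adm3 m h β n ↔ Leading m h β n := by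
  unfold Adm3 Leading Nat.ModEq
  constructor
  · rintro ⟨x, y, z, w, h1, h2, h3, h4, h5⟩
    exact ⟨x, y, z, w, h4.symm, h5, h1, h2, h3⟩
  · rintro ⟨x, y, z, w, h4, h5, h1, h2, h3⟩
    exact ⟨x, y, z, w, h1, h2, h3, h4.symm, h5⟩

/-- **Odd numbers `x² + y² + z² + 4 w²` with a prescribed residue class of the leading exponent, for
real bases.** -/
theorem result :
    (∀ m h : ℕ, Odd m → ∀ A B : ℝ, 1 < A → A < B → ∃ c : ℝ, 0 < c ∧
      ∀ u v : ℝ, A ≤ u → u < v → v ≤ B → ∃ n₀ : ℕ, ∀ n ≥ n₀, Odd n →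
        c * (v - u) ≤ volume.real {β : ℝ | u < β ∧ β ≤ v ∧ Leading m h β n}) ∧
    (∀ N : ℕ → ℕ, (∀ k, Odd (N k)) → Tendsto N atTop atTop → ∀ᵐ β : ℝ, 1 < β →
      ∀ m h : ℕ, Odd m → ∃ c : ℝ, 0 < c ∧ ∃ᶠ K : ℕ in atTop, c * K ≤ count m h β N K) := by
  refine ⟨fun m h hm A B hA hAB => ?_, fun N hN hNt => ?_⟩
  · obtain ⟨c, hc, h'⟩ := three_measure hm h hA hAB
    refine ⟨c, hc, fun u v hu huv hv => ?_⟩
    obtain ⟨n0, hn0⟩ := h' u v hu huv hv
    refine ⟨n0, fun n hn hodd => ?_⟩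
    have h1 := hn0 n hn hodd
    have e : {β : ℝ | u < β ∧ β ≤ v ∧ Leading m h β n} = {β : ℝ | Adm3 m h β n} ∩ Set.Ioc u v := by
      ext β
      simp only [Set.mem_ofPred_eq, Set.mem_inter_iff, Set.mem_Ioc, lead_iff]
      tauto
    rw [e]
    exact h1
  · have key : ∀ m h : ℕ, ∀ᵐ β : ℝ, 1 < β → Odd m → ∃ c : ℝ, 0 < c ∧
        ∃ᶠ K : ℕ in atTop, c * K ≤ count m h β N K := by
      intro m h
      by_cases hm : Odd m
      · filter_upwards [three_density hm h hN hNt] with β hβ hβ1 _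
        obtain ⟨c, hc, h'⟩ := hβ hβ1
        refine ⟨c, hc, h'.mono fun K hK => ?_⟩
        have e : cnt (fun k => {β : ℝ | Adm3 m h β (N k)}) K β = count m h β N K := by
          classical
          unfold cnt count
          congr 1
          ext k
          simp only [Finset.mem_filter, Set.mem_ofPred_eq, lead_iff]
        rw [← e]
        exact hK
      · exact Filter.Eventually.of_forall fun β _ h' => absurd h' hm
    have k2 : ∀ᵐ β : ℝ, ∀ m h : ℕ, 1 < β → Odd m → ∃ c : ℝ, 0 < c ∧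
        ∃ᶠ K : ℕ in atTop, c * K ≤ count m h β N K :=
      ae_all_iff.2 fun m => ae_all_iff.2 fun h => key m h
    filter_upwards [k2] with β hβ hβ1 m h hm
    exact hβ m h hβ1 hm

end Pool.Agent.Results.MP_f6c7cf_nt.AlmostEveryBase
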