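import Pool.Agent.X9.SQ.FinF

set_option autoImplicit false

/-!
# MP_f6c7cf_nt: prime factors of `2^x + 2^y + 2^z + 1` up to `c (log n)²`

For odd `n` the quadruples `(x, y, z, w)` of natural numbers with `n = x² + y² + z² + 4 w²` are
considered; `N` stands for `2^x + 2^y + 2^z + 1`.

Every large odd `n` has at least `n ^ (1 - ε)` quadruples for which every prime factor
`q ≤ c (log n)²` of `N` is odd and exceptional: `l²` divides the order of `2` modulo `q` for a prime
`l ≥ 5` that divides `(3n-2)(9n-2)`, or `3` divides this order, where the second case does not occur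
for `q = 7`, nor if `3 ∣ n` or `n ≡ 13 mod 32`. The starting result BeyondLogarithm has the range
`q ≤ c log n log log n / log log log n`.

The proof. Let `Y = c₁ log n`, `Z = c₂ (log n)²` with a small `c₂`, and `K = lcm(1, ..., Y)³`; let
`K'` be the least common multiple of the divisors of `K` that are not exceptional. The quadruples are
taken in the residue class modulo `12 K'` of the starting result ManyPrimesToLog, for which `N` is
prime to `2^K' - 1`. For the other primes `q ≤ Z` whose order is not exceptional this order is `l e`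
with a prime `l > Y` and `e ∣ K'`; then, for given residues of `x` and `y` modulo `l`, at most one
residue of `z` modulo `l` is bad. The bad residues modulo `l` have density at most `100 Z / l²` (sum
over the primes `q`), with the sum `O(Z / (Y log Y))` over the primes `l > Y`, and they are sifted by
Brun's pure sieve. Since the residue zero may be bad, the sieve is applied to the primitive
representations, which are equidistributed in the residue classes modulo multiples of `4` (circle
method of the starting library and Möbius inversion), and to the `25` rational rotations that bring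
every vector to the nonnegative orthant.
-/

namespace Pool.Agent.Results.MP_f6c7cf_nt.BeyondLogSquared

theorem result (ε : ℝ) (hε : 0 < ε) : ∃ c : ℝ, 0 < c ∧ ∃ n₀ : ℕ, ∀ n : ℕ, n₀ ≤ n → Odd n →
    ∃ S : Finset (ℕ × ℕ × ℕ × ℕ), (n : ℝ) ^ (1 - ε) ≤ (S.card : ℝ) ∧
      ∀ x y z w : ℕ, (x, y, z, w) ∈ S → n = x ^ 2 + y ^ 2 + z ^ 2 + 4 * w ^ 2 ∧
        ∀ q : ℕ, q.Prime → q ∣ 2 ^ x + 2 ^ y + 2 ^ z + 1 → (q : ℝ) ≤ c * Real.log n ^ 2 →
          q ≠ 2 ∧
          ((∃ l : ℕ, l.Prime ∧ 5 ≤ l ∧ l ^ 2 ∣ orderOf (2 : ZMod q) ∧
              (l : ℤ) ∣ (3 * n - 2) * (9 * n - 2)) ∨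
            (¬ 3 ∣ n ∧ n % 32 ≠ 13 ∧ q ≠ 7 ∧ 3 ∣ orderOf (2 : ZMod q))) :=
  Pool.Agent.X9.SQ.fin1F ε hε

end Pool.Agent.Results.MP_f6c7cf_nt.BeyondLogSquared
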