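import Pool.Agent.X9.SQ.FinF

set_option autoImplicit false

/-!
# MP_f6c7cf_nt: prime factors of `2^x + 2^y + 2^z + 1` up to any power of `log n`

Let `1/2 ≤ κ < 1` and `A = 1 / (1 - κ)`. Every large odd `n` has at least `n ^ (1 - ε)` quadruples of
natural numbers with `n = x² + y² + z² + 4 w²` for which every prime factor `q ≤ c (log n)^A` of
`2^x + 2^y + 2^z + 1` is odd and has one of the following properties: all prime factors `l` of the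
order of `2` modulo `q` are less than `20 q ^ κ`; or `l²` divides this order for a prime `l ≥ 5` that
divides `(3n-2)(9n-2)`; or `3` divides this order, where the last case does not occur for `q = 7`,
nor if `3 ∣ n` or `n ≡ 13 mod 32`.

The proof is that of BeyondLogSquared with `Z = c (log n)^A`: for a prime `q ≤ Z` with a prime factor
`l ≥ 20 q ^ κ` of its order `l e` one has `e ≤ q ^ (1 - κ) ≤ Y = c₁ log n`, and the densities of the
bad residues add up to at most `∑_q 5 q ^ (-κ) = O(Z ^ (1 - κ) / log Z)`.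
-/

namespace Pool.Agent.Results.MP_f6c7cf_nt.LargePrimeInOrder

theorem result (κ : ℝ) (hκ : 1 / 2 ≤ κ) (hκ1 : κ < 1) (ε : ℝ) (hε : 0 < ε) :
    ∃ c : ℝ, 0 < c ∧ ∃ n₀ : ℕ, ∀ n : ℕ, n₀ ≤ n → Odd n →
    ∃ S : Finset (ℕ × ℕ × ℕ × ℕ), (n : ℝ) ^ (1 - ε) ≤ (S.card : ℝ) ∧
      ∀ x y z w : ℕ, (x, y, z, w) ∈ S → n = x ^ 2 + y ^ 2 + z ^ 2 + 4 * w ^ 2 ∧
        ∀ q : ℕ, q.Prime → q ∣ 2 ^ x + 2 ^ y + 2 ^ z + 1 →
          (q : ℝ) ≤ c * Real.log n ^ (1 / (1 - κ)) →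
          q ≠ 2 ∧
          ((∀ l : ℕ, l.Prime → l ∣ orderOf (2 : ZMod q) → (l : ℝ) < 20 * (q : ℝ) ^ κ) ∨
            (∃ l : ℕ, l.Prime ∧ 5 ≤ l ∧ l ^ 2 ∣ orderOf (2 : ZMod q) ∧
              (l : ℤ) ∣ (3 * n - 2) * (9 * n - 2)) ∨
            (¬ 3 ∣ n ∧ n % 32 ≠ 13 ∧ q ≠ 7 ∧ 3 ∣ orderOf (2 : ZMod q))) :=
  Pool.Agent.X9.SQ.finAF κ hκ hκ1 ε hε

end Pool.Agent.Results.MP_f6c7cf_nt.LargePrimeInOrder
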