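import Pool.Agent.X9.SQ.OddF

set_option autoImplicit false

/-!
# MP_f6c7cf_nt: prime factors `q` of `2^x + 2^y + 2^z + 1` for which `2` has odd order modulo `q`

Every large odd `n` has at least `n ^ (1 - ε)` quadruples of natural numbers with
`n = x² + y² + z² + 4 w²` for which `2^x + 2^y + 2^z + 1` is odd and has no prime factor
`q ≤ c (log n)²` such that the order of `2` modulo `q` is odd. There is no exceptional set, in
contrast to the results in which all primes are considered: the primes for which the order is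
divisible by `3`, or by `l²` for a prime `l` dividing `(3n-2)(9n-2)`, are avoided as well if the order
is odd.

The proof. If `z ≡ x + y` modulo an odd number `M` then `2^x + 2^y + 2^z + 1` is
`(2^x + 1)(2^y + 1)` modulo every prime factor `q` of `2^M - 1`, and `-1` is not a power of `2`
modulo `q` because the order is odd. The equation `x² + y² + (x + y)² + w² = n` has admissible
solutions modulo all odd prime powers, and the parities of the coordinates are free. The orders with
a large prime factor are treated by the pure sieve of BeyondLogSquared.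
-/

namespace Pool.Agent.Results.MP_f6c7cf_nt.OddOrders

theorem result (ε : ℝ) (hε : 0 < ε) : ∃ c : ℝ, 0 < c ∧ ∃ n₀ : ℕ, ∀ n : ℕ, n₀ ≤ n → Odd n →
    ∃ S : Finset (ℕ × ℕ × ℕ × ℕ), (n : ℝ) ^ (1 - ε) ≤ (S.card : ℝ) ∧
      ∀ x y z w : ℕ, (x, y, z, w) ∈ S → n = x ^ 2 + y ^ 2 + z ^ 2 + 4 * w ^ 2 ∧
        ∀ q : ℕ, q.Prime → q ∣ 2 ^ x + 2 ^ y + 2 ^ z + 1 → (q : ℝ) ≤ c * Real.log n ^ 2 →
          q ≠ 2 ∧ Even (orderOf (2 : ZMod q)) :=
  Pool.Agent.X9.SQ.finO ε hε

end Pool.Agent.Results.MP_f6c7cf_nt.OddOrders
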